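import Pool.Agent.W999.ES.Basic

set_option autoImplicit false
set_option linter.all false

namespace Pool.Agent.W646.ES.Cell

open Finset Pool.Agent.W999.ES

theorem foldl_bval (l : List Bool) (n : ℕ) :
    l.foldl (fun n b => 2 * n + (if b then 1 else 0)) n = n * 2 ^ l.length + bval l := by
  induction l generalizing n with
  | nil => simp [bval]
  | cons x l ih =>
    rw [List.foldl_cons, ih]
    have : bval (x :: l) = (2 * 0 + (if x then 1 else 0)) * 2 ^ l.length + bval l := by
      rw [← ih]; rfl
    rw [this, List.length_cons, pow_succ]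
    ring

theorem bval_cons (x : Bool) (l : List Bool) :
    bval (x :: l) = (if x then 1 else 0) * 2 ^ l.length + bval l := by
  have h := foldl_bval l (2 * 0 + (if x then 1 else 0))
  have : bval (x :: l) = l.foldl (fun n b => 2 * n + (if b then 1 else 0))
      (2 * 0 + (if x then 1 else 0)) := rfl
  rw [this, h]
  ring

theorem bval_app (r r' : List Bool) : bval (r ++ r') = bval r * 2 ^ r'.length + bval r' := by
  unfold bval
  rw [List.foldl_append]
  exact foldl_bval r' _

theorem bval_lt (l : List Bool) : bval l < 2 ^ l.length := by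
  induction l with
  | nil => simp [bval]
  | cons x l ih =>
    rw [bval_cons, List.length_cons, pow_succ]
    cases x <;> simp <;> omega

theorem bval_inj : ∀ (l l' : List Bool), l.length = l'.length → bval l = bval l' → l = l' := by
  intro l
  induction l with
  | nil =>
    intro l' h _
    cases l' with
    | nil => rfl
    | cons x l' => simp at h
  | cons x l ih =>
    intro l' h hb
    cases l' with
    | nil => simp at h
    | cons y l' =>
      have hl : l.length = l'.length := by simpa using h
      rw [bval_cons, bval_cons, ← hl] at hb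
      have h1 := bval_lt l
      have h2 := bval_lt l'
      rw [← hl] at h2
      have hxy : x = y := by
        cases x <;> cases y
        · rfl
        · exfalso; simp at hb; omega
        · exfalso; simp at hb; omega
        · rfl
      subst hxy
      rw [ih l' hl (by omega)]

theorem bval_surj : ∀ (a n : ℕ), n < 2 ^ a → ∃ l : List Bool, l.length = a ∧ bval l = n := by
  intro a
  induction a with
  | zero =>
    intro n hn
    refine ⟨[], rfl, ?_⟩
    simp at hn
    rw [hn]; rfl
  | succ a ih =>
    intro n hn
    obtain ⟨l, hl, hb⟩ := ih (n / 2) (by rw [pow_succ] at hn; omega)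
    refine ⟨l ++ [decide (n % 2 = 1)], by simp [hl], ?_⟩
    rw [bval_app, hb]
    by_cases h : n % 2 = 1
    · simp only [h, decide_true, List.length_singleton, pow_one]
      have : bval [true] = 1 := rfl
      rw [this]; omega
    · simp only [h, decide_false, List.length_singleton, pow_one]
      have : bval [false] = 0 := rfl
      rw [this]; omega

theorem nb_bval (k : ℕ) (P : ℕ → Prop) [DecidablePred P] (A : List Bool → Bool)
    (hA : ∀ r, r.length = k → (A r = true ↔ P (bval r))) :
    nb k A = ((Finset.range (2 ^ k)).filter P).card := by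
  rw [nb_eq_card]
  apply Finset.card_bij (fun r _ => bval r)
  · intro r hr
    rw [mem_filter, mem_strs] at hr
    rw [mem_filter, mem_range]
    exact ⟨by have := bval_lt r; rwa [hr.1] at this, (hA r hr.1).mp hr.2⟩
  · intro r hr r' hr' h
    rw [mem_filter, mem_strs] at hr hr'
    exact bval_inj r r' (by rw [hr.1, hr'.1]) h
  · intro n hn
    rw [mem_filter, mem_range] at hn
    obtain ⟨l, hl, hb⟩ := bval_surj k n hn.1
    refine ⟨l, ?_, hb⟩
    rw [mem_filter, mem_strs]
    exact ⟨hl, (hA l hl).mpr (hb ▸ hn.2)⟩

/-- the condition -/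
def Inn (k U Z C w : ℕ) : Prop := C * 2 ^ k ≤ U * Z ∧ (U + 1) * Z ≤ (C + w) * 2 ^ k

instance (k U Z C w : ℕ) : Decidable (Inn k U Z C w) := by unfold Inn; infer_instance

/-- recursive form of `cell` -/
def cf (k U Z : ℕ) : ℕ → List (List Bool × ℕ) → Option (List Bool)
  | _, [] => none
  | C, p :: T => if Inn k U Z C p.2 then some p.1 else cf k U Z (C + p.2) T

theorem foldl_some (k U Z : ℕ) (b : List Bool) (T : List (List Bool × ℕ)) (C : ℕ) :
    (T.foldl (fun (s : ℕ × Option (List Bool)) p => (s.1 + p.2,
    if s.2.isSome = true then s.2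
    else if s.1 * 2 ^ k ≤ U * Z ∧ (U + 1) * Z ≤ (s.1 + p.2) * 2 ^ k then some p.1 else none))
    (C, some b)).2 = some b := by
  induction T generalizing C with
  | nil => rfl
  | cons p T ih =>
    rw [List.foldl_cons]
    simp only [Option.isSome_some, if_true]
    exact ih (C + p.2)

theorem foldl_cf (k U Z : ℕ) (T : List (List Bool × ℕ)) (C : ℕ) :
    (T.foldl (fun (s : ℕ × Option (List Bool)) p => (s.1 + p.2,
    if s.2.isSome = true then s.2
    else if s.1 * 2 ^ k ≤ U * Z ∧ (U + 1) * Z ≤ (s.1 + p.2) * 2 ^ k then some p.1 else none))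
    (C, none)).2 = cf k U Z C T := by
  induction T generalizing C with
  | nil => rfl
  | cons p T ih =>
    rw [List.foldl_cons]
    simp only [Option.isSome_none, Bool.false_eq_true, if_false]
    unfold cf
    by_cases h : Inn k U Z C p.2
    · rw [if_pos h]
      unfold Inn at h
      rw [if_pos h]
      exact foldl_some k U Z p.1 T _
    · rw [if_neg h]
      unfold Inn at h
      rw [if_neg h]
      exact ih (C + p.2)

theorem cell_eq (k U Z : ℕ) (T : List (List Bool × ℕ)) : cell k U Z T = cf k U Z 0 T :=
  foldl_cf k U Z T 0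

theorem cf_mem (k U Z : ℕ) (T : List (List Bool × ℕ)) (C : ℕ) (b : List Bool)
    (h : cf k U Z C T = some b) : b ∈ T.map (fun p => p.1) := by
  induction T generalizing C with
  | nil => unfold cf at h; simp at h
  | cons p T ih =>
    unfold cf at h
    rw [List.map_cons, List.mem_cons]
    split_ifs at h with hc
    · left
      exact (Option.some_injective _ h).symm
    · right
      exact ih _ h

/-- sum of the weights -/
def ws (T : List (List Bool × ℕ)) : ℕ := (T.map (fun p => p.2)).sum

theorem cf_some {k U Z : ℕ} (hZ : 0 < Z) (T : List (List Bool × ℕ)) (C : ℕ) (b : List Bool) :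
    cf k U Z C T = some b ↔ ∃ T1 w T2, T = T1 ++ (b, w) :: T2 ∧ Inn k U Z (C + ws T1) w := by
  induction T generalizing C with
  | nil =>
    unfold cf
    constructor
    · intro h; simp at h
    · rintro ⟨T1, w, T2, h, -⟩
      simp at h
  | cons p T ih =>
    unfold cf
    by_cases hc : Inn k U Z C p.2
    · rw [if_pos hc]
      constructor
      · intro h
        have := Option.some_injective _ h
        refine ⟨[], p.2, T, ?_, ?_⟩
        · rw [← this]; rfl
        · unfold ws; simpa using hc
      · rintro ⟨T1, w, T2, h, hI⟩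
        cases T1 with
        | nil =>
          rw [List.nil_append, List.cons.injEq] at h
          rw [h.1]
        | cons p' T1 =>
          exfalso
          rw [List.cons_append, List.cons.injEq] at h
          obtain ⟨rfl, h⟩ := h
          have h1 : C + p.2 ≤ C + ws (p :: T1) := by
            unfold ws; rw [List.map_cons, List.sum_cons]; omega
          have h2 := hc.2
          have h3 := hI.1
          have h4 : (C + p.2) * 2 ^ k ≤ (C + ws (p :: T1)) * 2 ^ k := Nat.mul_le_mul_right _ h1
          rw [add_mul, one_mul] at h2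
          omega
    · rw [if_neg hc, ih]
      constructor
      · rintro ⟨T1, w, T2, h, hI⟩
        refine ⟨p :: T1, w, T2, ?_, ?_⟩
        · rw [h]; rfl
        · unfold ws at hI ⊢
          rw [List.map_cons, List.sum_cons, ← add_assoc]
          exact hI
      · rintro ⟨T1, w, T2, h, hI⟩
        cases T1 with
        | nil =>
          exfalso
          rw [List.nil_append, List.cons.injEq] at h
          apply hc
          rw [h.1]
          unfold ws at hI
          simpa using hI
        | cons p' T1 =>
          rw [List.cons_append, List.cons.injEq] at h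
          obtain ⟨rfl, h⟩ := h
          refine ⟨T1, w, T2, h, ?_⟩
          unfold ws at hI ⊢
          rw [List.map_cons, List.sum_cons, ← add_assoc] at hI
          exact hI

theorem split_unique : ∀ (T1 T1' T2 T2' : List (List Bool × ℕ)) (b : List Bool) (w w' : ℕ),
    ((T1 ++ (b, w) :: T2).map (fun p => p.1)).Nodup →
    T1 ++ (b, w) :: T2 = T1' ++ (b, w') :: T2' → T1 = T1' ∧ w = w' := by
  intro T1
  induction T1 with
  | nil =>
    intro T1' T2 T2' b w w' hn h
    cases T1' with
    | nil =>
      rw [List.nil_append, List.nil_append, List.cons.injEq, Prod.mk.injEq] at h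
      exact ⟨rfl, h.1.2⟩
    | cons p T1' =>
      exfalso
      rw [List.nil_append, List.cons_append, List.cons.injEq] at h
      obtain ⟨rfl, h⟩ := h
      rw [List.nil_append, List.map_cons, List.nodup_cons] at hn
      apply hn.1
      rw [h]
      simp
  | cons p T1 ih =>
    intro T1' T2 T2' b w w' hn h
    cases T1' with
    | nil =>
      exfalso
      rw [List.nil_append, List.cons_append, List.cons.injEq] at h
      obtain ⟨rfl, h⟩ := h
      rw [List.cons_append, List.map_cons, List.nodup_cons] at hn
      apply hn.1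
      simp
    | cons p' T1' =>
      rw [List.cons_append, List.cons_append, List.cons.injEq] at h
      obtain ⟨rfl, h⟩ := h
      rw [List.cons_append, List.map_cons, List.nodup_cons] at hn
      obtain ⟨e1, e2⟩ := ih T1' T2 T2' b w w' hn.2 h
      exact ⟨by rw [e1], e2⟩

theorem count {k Z C w : ℕ} (hZ : 0 < Z) (hC : C + w ≤ Z) :
    (w * 2 ^ k : ℝ) / Z - 2 ≤ (((Finset.range (2 ^ k)).filter (fun U => Inn k U Z C w)).card : ℝ) ∧
    (((Finset.range (2 ^ k)).filter (fun U => Inn k U Z C w)).card : ℝ) ≤ (w * 2 ^ k : ℝ) / Z := by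
  have hZr : (0:ℝ) < Z := by exact_mod_cast hZ
  set α : ℝ := (C * 2 ^ k : ℝ) / Z with hα
  set β : ℝ := ((C + w) * 2 ^ k : ℝ) / Z with hβ
  have hα0 : 0 ≤ α := by positivity
  have hβ0 : 0 ≤ β := by positivity
  have hdiff : β - α = (w * 2 ^ k : ℝ) / Z := by rw [hα, hβ]; ring
  have hset : (Finset.range (2 ^ k)).filter (fun U => Inn k U Z C w) =
      Finset.Ico ⌈α⌉₊ ⌊β⌋₊ := by
    ext U
    rw [mem_filter, mem_range, mem_Ico]
    have h1 : C * 2 ^ k ≤ U * Z ↔ ⌈α⌉₊ ≤ U := by
      rw [Nat.ceil_le, hα, div_le_iff₀ hZr]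
      constructor
      · intro h; exact_mod_cast h
      · intro h; exact_mod_cast h
    have h2 : (U + 1) * Z ≤ (C + w) * 2 ^ k ↔ U < ⌊β⌋₊ := by
      rw [← Nat.succ_le_iff, Nat.le_floor_iff hβ0, hβ, le_div_iff₀ hZr]
      constructor
      · intro h
        have : (((U + 1) * Z : ℕ) : ℝ) ≤ (((C + w) * 2 ^ k : ℕ) : ℝ) := by exact_mod_cast h
        push_cast at this ⊢
        exact this
      · intro h
        have : (((U + 1) * Z : ℕ) : ℝ) ≤ (((C + w) * 2 ^ k : ℕ) : ℝ) := by
          push_cast at h ⊢
          exact h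
        exact_mod_cast this
    constructor
    · rintro ⟨-, h3, h4⟩
      exact ⟨h1.mp h3, h2.mp h4⟩
    · rintro ⟨h3, h4⟩
      refine ⟨?_, h1.mpr h3, h2.mpr h4⟩
      have h5 := h2.mpr h4
      have h6 : (C + w) * 2 ^ k ≤ Z * 2 ^ k := Nat.mul_le_mul_right _ hC
      have h7 : (U + 1) * Z ≤ 2 ^ k * Z := by rw [mul_comm (2 ^ k) Z]; exact le_trans h5 h6
      have h8 : U + 1 ≤ 2 ^ k := Nat.le_of_mul_le_mul_right h7 hZ
      omega
  rw [hset, Nat.card_Ico, ← hdiff]
  have c1 : (⌈α⌉₊ : ℝ) < α + 1 := Nat.ceil_lt_add_one hα0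
  have c2 : α ≤ ⌈α⌉₊ := Nat.le_ceil _
  have c3 : β < ⌊β⌋₊ + 1 := Nat.lt_floor_add_one _
  have c4 : (⌊β⌋₊ : ℝ) ≤ β := Nat.floor_le hβ0
  have c5 : α ≤ β := by
    have : 0 ≤ β - α := by rw [hdiff]; positivity
    linarith
  rcases le_total ⌈α⌉₊ ⌊β⌋₊ with h | h
  · rw [Nat.cast_sub h]
    constructor <;> linarith
  · rw [Nat.sub_eq_zero_of_le h]
    have : (⌊β⌋₊ : ℝ) ≤ ⌈α⌉₊ := by exact_mod_cast h
    rw [Nat.cast_zero]
    constructor <;> linarith

theorem count_key {T : List (List Bool × ℕ)} (hn : (T.map (fun p => p.1)).Nodup)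
    (hZ : 0 < ws T) {p : List Bool × ℕ} (hp : p ∈ T) (k : ℕ) :
    (p.2 * 2 ^ k : ℝ) / ws T - 2 ≤
      nb k (fun r => decide (cell k (bval r) (ws T) T = some p.1)) ∧
    (nb k (fun r => decide (cell k (bval r) (ws T) T = some p.1)) : ℝ) ≤
      (p.2 * 2 ^ k : ℝ) / ws T := by
  obtain ⟨T1, T2, hT⟩ := List.append_of_mem hp
  have hCw : ws T1 + p.2 ≤ ws T := by
    rw [hT]; unfold ws; simp
  have key : ∀ U, cell k U (ws T) T = some p.1 ↔ Inn k U (ws T) (ws T1) p.2 := by
    intro U
    rw [cell_eq, cf_some hZ]
    constructor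
    · rintro ⟨T1', w, T2', h, hI⟩
      have h2 : T1 ++ (p.1, p.2) :: T2 = T1' ++ (p.1, w) :: T2' := by
        rw [← h]; exact hT.symm
      obtain ⟨e1, e2⟩ := split_unique T1 T1' T2 T2' p.1 p.2 w (by
        have : T1 ++ (p.1, p.2) :: T2 = T := hT.symm
        rw [this]; exact hn) h2
      rw [zero_add] at hI
      rw [e1, e2]
      exact hI
    · intro hI
      refine ⟨T1, p.2, T2, hT, ?_⟩
      rw [zero_add]
      exact hI
  rw [nb_bval k (fun U => Inn k U (ws T) (ws T1) p.2) _ (fun r _ => by
    rw [decide_eq_true_eq]; exact key (bval r))]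
  exact count hZ hCw

theorem cellT : S_CELL := by
  intro T hn hZ0
  have hZ : 0 < ws T := Nat.pos_of_ne_zero hZ0
  refine ⟨?_, ?_, ?_, ?_⟩
  · intro k r r' b hr h
    change cell k (bval r) (ws T) T = some b at h
    change cell (k + r'.length) (bval (r ++ r')) (ws T) T = some b
    rw [cell_eq, cf_some hZ] at h ⊢
    obtain ⟨T1, w, T2, hT, h1, h2⟩ := h
    refine ⟨T1, w, T2, hT, ?_, ?_⟩
    · rw [bval_app, pow_add, ← mul_assoc]
      calc (0 + ws T1) * 2 ^ k * 2 ^ r'.length ≤ bval r * ws T * 2 ^ r'.length :=
            Nat.mul_le_mul_right _ h1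
        _ = bval r * 2 ^ r'.length * ws T := by ring
        _ ≤ (bval r * 2 ^ r'.length + bval r') * ws T := Nat.mul_le_mul_right _ (Nat.le_add_right _ _)
    · rw [bval_app, pow_add, ← mul_assoc]
      have h3 : bval r' + 1 ≤ 2 ^ r'.length := bval_lt r'
      calc (bval r * 2 ^ r'.length + bval r' + 1) * ws T
          ≤ ((bval r + 1) * 2 ^ r'.length) * ws T := by
            apply Nat.mul_le_mul_right
            rw [add_mul, one_mul]; omega
        _ = (bval r + 1) * ws T * 2 ^ r'.length := by ring
        _ ≤ (0 + ws T1 + w) * 2 ^ k * 2 ^ r'.length := Nat.mul_le_mul_right _ h2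
  · intro p hp k
    exact count_key hn hZ hp k
  · intro k
    change nb k (fun r => decide (cell k (bval r) (ws T) T = none)) ≤ 2 * T.length
    have h1 : 2 ^ k = nb k (fun r => decide (cell k (bval r) (ws T) T = none)) +
        ∑ b ∈ (T.map (fun p => p.1)).toFinset,
          nb k (fun r => decide (cell k (bval r) (ws T) T = some b)) := by
      rw [nb_eq_sum, sum_congr rfl (fun b _ => nb_eq_sum k _), sum_comm, ← sum_add_distrib,
        ← card_strs, card_eq_sum_ones]
      apply sum_congr rfl
      intro r _
      cases hc : cell k (bval r) (ws T) T with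
      | none => simp
      | some b0 =>
        have hmem : b0 ∈ (T.map (fun p => p.1)).toFinset := by
          rw [List.mem_toFinset]
          rw [cell_eq] at hc
          exact cf_mem k _ _ T 0 b0 hc
        rw [sum_eq_single b0]
        · simp
        · intro b' _ hne
          have : ¬ (some b0 = some b') := fun h => hne (Option.some_injective _ h).symm
          simp [this, Ne.symm hne]
        · intro h'; exact absurd hmem h'
    have h2 : ∑ b ∈ (T.map (fun p => p.1)).toFinset,
          (nb k (fun r => decide (cell k (bval r) (ws T) T = some b)) : ℝ) =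
        (T.map (fun p => (nb k (fun r => decide (cell k (bval r) (ws T) T = some p.1)) : ℝ))).sum := by
      rw [List.sum_toFinset _ hn, List.map_map]
      rfl
    have h3 : (T.map (fun p => ((p.2 * 2 ^ k : ℝ) / ws T - 2))).sum ≤
        (T.map (fun p => (nb k (fun r => decide (cell k (bval r) (ws T) T = some p.1)) : ℝ))).sum := by
      apply List.sum_le_sum
      intro p hp
      exact (count_key hn hZ hp k).1
    have hZr : (0:ℝ) < ws T := by exact_mod_cast hZ
    have h4 : ∀ L : List (List Bool × ℕ), (L.map (fun p => ((p.2 * 2 ^ k : ℝ) / ws T - 2))).sum =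
        (ws L : ℝ) * 2 ^ k / ws T - 2 * L.length := by
      intro L
      induction L with
      | nil => simp [ws]
      | cons p L ih =>
        rw [List.map_cons, List.sum_cons, ih]
        unfold ws
        rw [List.map_cons, List.sum_cons, List.length_cons]
        push_cast
        ring
    rw [h4 T] at h3
    have h5 : (ws T : ℝ) * 2 ^ k / ws T = 2 ^ k := by field_simp
    rw [h5, ← h2] at h3
    have h6 : ((2 ^ k : ℕ) : ℝ) = (nb k (fun r => decide (cell k (bval r) (ws T) T = none)) : ℝ) +
        ∑ b ∈ (T.map (fun p => p.1)).toFinset,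
          (nb k (fun r => decide (cell k (bval r) (ws T) T = some b)) : ℝ) := by
      conv_lhs => rw [h1]
      push_cast
      rfl
    push_cast at h6
    have h7 : (nb k (fun r => decide (cell k (bval r) (ws T) T = none)) : ℝ) ≤ 2 * T.length := by
      linarith
    exact_mod_cast h7
  · intro k U Z b h
    rw [cell_eq] at h
    exact cf_mem k U Z T 0 b h

end Pool.Agent.W646.ES.Cell
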