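import Pool.Agent.W999.ES.Basic

set_option autoImplicit false

namespace Pool.Agent.W646.ES

open Finset Pool.Agent.W999.ES

theorem look_map (g : List Bool → ℕ) : ∀ (L : List (List Bool)), L.Nodup → ∀ b ∈ L,
    look (L.map (fun b => (b, g b))) b = g b := by
  have h0 : ∀ (L : List (List Bool)) (b : List Bool), b ∉ L →
      look (L.map (fun b => (b, g b))) b = 0 := by
    intro L
    induction L with
    | nil => intro b _; rfl
    | cons x L ih =>
      intro b hb
      rw [List.mem_cons, not_or] at hb
      have h1 := ih b hb.2
      unfold look at h1 ⊢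
      rw [List.map_cons, List.filter_cons]
      have : ¬ (decide (x = b) = true) := by
        rw [decide_eq_true_eq]
        exact fun h => hb.1 h.symm
      rw [if_neg this]
      exact h1
  intro L
  induction L with
  | nil => intro _ b hb; simp at hb
  | cons x L ih =>
    intro hn b hb
    rw [List.nodup_cons] at hn
    unfold look
    rw [List.map_cons, List.filter_cons]
    by_cases hxb : x = b
    · have : (decide (x = b) = true) := by rw [decide_eq_true_eq]; exact hxb
      rw [if_pos this, List.map_cons, List.sum_cons]
      have h1 := h0 L b (hxb ▸ hn.1)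
      unfold look at h1
      rw [h1, hxb, add_zero]
    · have : ¬ (decide (x = b) = true) := by rw [decide_eq_true_eq]; exact hxb
      rw [if_neg this]
      have hbL : b ∈ L := by
        rcases List.mem_cons.mp hb with h | h
        · exact absurd h.symm hxb
        · exact h
      exact ih hn.2 b hbL

theorem sum_allB (w : ℕ) (f : List Bool → ℕ) :
    ((allB (2 ^ w) w).map f).sum = ∑ v ∈ strs w, f v := by
  unfold strs
  rw [List.sum_toFinset f (nodup_allB w)]

theorem walk_split {m K a t : ℕ} {q : List Bool → Bool} {b₀ : List Bool} (s : ℕ) {u v : List Bool}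
    (hu : u.length = s * (2 * a + 1)) (hv : v.length = 2 * a + 1) :
    walk m a (s + 1) q b₀ (u ++ v) = stepB m a q v (walk m a s q b₀ u) := by
  rw [walk_succ, walk_append m a s q b₀ v (by omega)]
  congr 1
  rw [← hu, List.drop_left, ← hv, List.take_length]

theorem nb_walk_succ {m K a t : ℕ} {q : List Bool → Bool} {b₀ : List Bool}
    (h : Hyp m K a t q b₀) (s : ℕ) {b : List Bool} (hb : b ∈ bs m q) :
    nb ((s + 1) * (2 * a + 1)) (fun r => decide (walk m a (s + 1) q b₀ r = b)) =
      ∑ v ∈ strs (2 * a + 1),
        nb (s * (2 * a + 1)) (fun r => decide (walk m a s q b₀ r = stepB m a q v b)) := by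
  rw [add_mul, one_mul, nb_eq_sum, sum_strs_add, Finset.sum_comm]
  refine sum_congr rfl fun v hv => ?_
  rw [nb_eq_sum]
  refine sum_congr rfl fun u hu => ?_
  rw [mem_strs] at hu hv
  rw [walk_split (K := K) (t := t) s hu hv]
  have hx := walk_mem h s u
  have : (stepB m a q v (walk m a s q b₀ u) = b) ↔ (walk m a s q b₀ u = stepB m a q v b) := by
    constructor
    · intro h'
      rw [← h', stepB_stepB v hx]
    · intro h'
      rw [h', stepB_stepB v hb]
  by_cases hc : walk m a s q b₀ u = stepB m a q v b
  · rw [if_pos (by rw [decide_eq_true_eq]; exact this.mpr hc),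
      if_pos (by rw [decide_eq_true_eq]; exact hc)]
  · rw [if_neg (by rw [decide_eq_true_eq]; exact fun h' => hc (this.mp h')),
      if_neg (by rw [decide_eq_true_eq]; exact hc)]

theorem tab_aux {m K a t : ℕ} {q : List Bool → Bool} {b₀ : List Bool}
    (h : Hyp m K a t q b₀) (s : ℕ) :
    (tstep m a q)^[s] (((allB (2 ^ m) m).filter q).map (fun b => (b, if b = b₀ then 1 else 0))) =
      ((allB (2 ^ m) m).filter q).map
        (fun b => (b, nb (s * (2 * a + 1)) (fun r => decide (walk m a s q b₀ r = b)))) := by
  induction s with
  | zero =>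
    rw [Function.iterate_zero, id]
    apply List.map_congr_left
    intro b _
    congr 1
    rw [zero_mul]
    unfold nb
    simp only [allB, walk_zero]
    by_cases hb : b = b₀
    · subst hb; simp
    · simp [hb, Ne.symm hb]
  | succ s ih =>
    rw [Function.iterate_succ_apply', ih]
    conv_lhs => unfold tstep
    rw [List.map_map]
    apply List.map_congr_left
    intro b hb
    have hbs : b ∈ bs m q := by
      unfold bs
      rw [List.mem_toFinset]
      exact hb
    simp only [Function.comp]
    congr 1
    rw [nb_walk_succ h s hbs, sum_allB]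
    refine sum_congr rfl fun v _ => ?_
    have h1 := stepB_mem (m := m) (a := a) (q := q) v hbs
    unfold bs at h1
    rw [List.mem_toFinset] at h1
    exact look_map (fun b => nb (s * (2 * a + 1)) (fun r => decide (walk m a s q b₀ r = b)))
      ((allB (2 ^ m) m).filter q) ((nodup_allB m).filter _) _ h1

theorem cnt : S_CNT := by
  intro N m K a t q b₀ h hN
  unfold tab
  rw [(allB_full hN).1]
  exact tab_aux h t

end Pool.Agent.W646.ES
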