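import Pool.Agent.W646.ES.Cnt

set_option autoImplicit false
set_option linter.all false

namespace Pool.Agent.W646.ES

open Finset Pool.Agent.W999.ES

noncomputable section

theorem bval_append (l : List Bool) (x : Bool) :
    bval (l ++ [x]) = 2 * bval l + (if x then 1 else 0) := by
  unfold bval
  rw [List.foldl_append]
  rfl

theorem bval_surj : ∀ (a n : ℕ), n < 2 ^ a → ∃ l : List Bool, l.length = a ∧ bval l = n := by
  intro a
  induction a with
  | zero =>
    intro n hn
    refine ⟨[], rfl, ?_⟩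
    simp at hn
    rw [hn]; rfl
  | succ a ih =>
    intro n hn
    obtain ⟨l, hl, hb⟩ := ih (n / 2) (by rw [pow_succ] at hn; omega)
    refine ⟨l ++ [decide (n % 2 = 1)], by simp [hl], ?_⟩
    rw [bval_append, hb]
    by_cases h : n % 2 = 1
    · simp only [h, decide_true, if_true]; omega
    · simp only [h, decide_false, if_false]; simp; omega

theorem strs_one : strs 1 = {[false], [true]} := by
  ext r
  rw [mem_strs, mem_insert, mem_singleton, List.length_eq_one_iff]
  constructor
  · rintro ⟨x, rfl⟩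
    cases x
    · exact Or.inl rfl
    · exact Or.inr rfl
  · rintro (rfl | rfl)
    · exact ⟨false, rfl⟩
    · exact ⟨true, rfl⟩

theorem sum_strs_succ (l : ℕ) (f : List Bool → ℝ) :
    ∑ r ∈ strs (l + 1), f r = ∑ c ∈ strs l, (f (false :: c) + f (true :: c)) := by
  rw [add_comm l 1, sum_strs_add, strs_one, sum_pair (by simp), ← sum_add_distrib]
  rfl

variable {m a : ℕ} {q : List Bool → Bool}

/-- a non-lazy step -/
def sg (m a : ℕ) (q : List Bool → Bool) (c b : List Bool) : List Bool := stepB m a q (true :: c) b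

theorem stepB_false (c b : List Bool) : stepB m a q (false :: c) b = b := by
  unfold stepB
  simp

theorem sg_mem (c : List Bool) {b : List Bool} (hb : b ∈ bs m q) : sg m a q c b ∈ bs m q :=
  stepB_mem _ hb

theorem sg_sg (c : List Bool) {b : List Bool} (hb : b ∈ bs m q) :
    sg m a q c (sg m a q c b) = b := stepB_stepB _ hb

theorem sum_sg (c : List Bool) (G : List Bool → ℝ) :
    ∑ b ∈ bs m q, G (sg m a q c b) = ∑ b ∈ bs m q, G b :=
  Finset.sum_nbij' (sg m a q c) (sg m a q c) (fun b hb => sg_mem c hb) (fun b hb => sg_mem c hb)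
    (fun b hb => sg_sg c hb) (fun b hb => sg_sg c hb) (fun b _ => rfl)

/-- the Markov operator -/
def PP (m a : ℕ) (q : List Bool → Bool) (g : List Bool → ℝ) (b : List Bool) : ℝ :=
  (1 / 2 ^ (2 * a + 1)) * ∑ v ∈ strs (2 * a + 1), g (stepB m a q v b)

def MM (m a : ℕ) (q : List Bool → Bool) (g : List Bool → ℝ) (b : List Bool) : ℝ :=
  (1 / 4 ^ a) * ∑ c ∈ strs (2 * a), g (sg m a q c b)

theorem card4 (a : ℕ) : ((strs (2 * a)).card : ℝ) = 4 ^ a := by
  rw [card_strs, pow_mul]
  norm_num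

theorem PP_eq (g : List Bool → ℝ) (b : List Bool) :
    PP m a q g b = (1 / 2) * (g b + MM m a q g b) := by
  unfold PP MM
  rw [sum_strs_succ, sum_add_distrib]
  have h1 : ∑ c ∈ strs (2 * a), g (stepB m a q (false :: c) b) = 4 ^ a * g b := by
    rw [sum_congr rfl (fun c _ => by rw [stepB_false]), sum_const, nsmul_eq_mul, card4]
  have h2 : (2:ℝ) ^ (2 * a + 1) = 2 * 4 ^ a := by
    rw [pow_succ, pow_mul]; norm_num; ring
  have h3 : ∑ c ∈ strs (2 * a), g (stepB m a q (true :: c) b)
      = ∑ c ∈ strs (2 * a), g (sg m a q c b) := rfl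
  rw [h1, h2, h3]
  have h4 : (0:ℝ) < 4 ^ a := by positivity
  field_simp

open scoped Classical in
theorem D_ge (ha : m ≤ 2 ^ a) (g : List Bool → ℝ) :
    ∑ b ∈ bs m q, ∑ b' ∈ (bs m q).filter (fun b' => b' ≠ b ∧ ∃ i < m, ∃ e < m, b' = swapB m i e b),
      (g b - g b') ^ 2 ≤ ∑ b ∈ bs m q, ∑ c ∈ strs (2 * a), (g b - g (sg m a q c b)) ^ 2 := by
  apply sum_le_sum
  intro b hb
  -- code
  have hcode : ∀ b' ∈ (bs m q).filter (fun b' => b' ≠ b ∧ ∃ i < m, ∃ e < m, b' = swapB m i e b),
      ∃ c, c ∈ strs (2 * a) ∧ sg m a q c b = b' := by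
    intro b' hb'
    rw [mem_filter] at hb'
    obtain ⟨hb'B, -, i, hi, e, he, hbe⟩ := hb'
    obtain ⟨c1, h1, h1'⟩ := bval_surj a i (lt_of_lt_of_le hi ha)
    obtain ⟨c2, h2, h2'⟩ := bval_surj a e (lt_of_lt_of_le he ha)
    refine ⟨c1 ++ c2, ?_, ?_⟩
    · rw [mem_strs, List.length_append, h1, h2]; ring
    · unfold sg stepB
      have e1 : (true :: (c1 ++ c2)).tail.take a = c1 := by
        rw [List.tail_cons, ← h1, List.take_left]
      have e2 : (true :: (c1 ++ c2)).tail.drop a = c2 := by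
        rw [List.tail_cons, ← h1, List.drop_left]
      have e3 : (true :: (c1 ++ c2)).headD false = true := rfl
      rw [if_pos e3, e1, e2, h1', h2', ← hbe]
      rw [if_pos (mem_bs.mp hb'B).2]
  choose! code hc1 hc2 using hcode
  have hinj : ∀ b' ∈ (bs m q).filter (fun b' => b' ≠ b ∧ ∃ i < m, ∃ e < m, b' = swapB m i e b),
      ∀ b'' ∈ (bs m q).filter (fun b' => b' ≠ b ∧ ∃ i < m, ∃ e < m, b' = swapB m i e b),
      code b' = code b'' → b' = b'' := by
    intro b' hb' b'' hb'' h
    rw [← hc2 b' hb', ← hc2 b'' hb'', h]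
  calc ∑ b' ∈ (bs m q).filter (fun b' => b' ≠ b ∧ ∃ i < m, ∃ e < m, b' = swapB m i e b),
        (g b - g b') ^ 2
      = ∑ b' ∈ (bs m q).filter (fun b' => b' ≠ b ∧ ∃ i < m, ∃ e < m, b' = swapB m i e b),
        (g b - g (sg m a q (code b') b)) ^ 2 := by
        apply sum_congr rfl
        intro b' hb'
        rw [hc2 b' hb']
    _ = ∑ c ∈ ((bs m q).filter (fun b' => b' ≠ b ∧ ∃ i < m, ∃ e < m, b' = swapB m i e b)).image code,
        (g b - g (sg m a q c b)) ^ 2 := by
        rw [sum_image]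
        intro x hx y hy h
        exact hinj x (mem_coe.mp hx) y (mem_coe.mp hy) h
    _ ≤ ∑ c ∈ strs (2 * a), (g b - g (sg m a q c b)) ^ 2 := by
        apply sum_le_sum_of_subset_of_nonneg
        · intro c hc
          rw [mem_image] at hc
          obtain ⟨b', hb', rfl⟩ := hc
          exact hc1 b' hb'
        · intro c _ _
          positivity

theorem contraction (ha : m ≤ 2 ^ a) (hPI : PI m q) (g : List Bool → ℝ)
    (hg : ∑ b ∈ bs m q, g b = 0) :
    ∑ b ∈ bs m q, PP m a q g b ^ 2 ≤ (1 - 1 / (2 * 4 ^ a)) * ∑ b ∈ bs m q, g b ^ 2 := by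
  classical
  have h4 : (0:ℝ) < 4 ^ a := by positivity
  set N := ∑ b ∈ bs m q, g b ^ 2 with hN
  set D := ∑ b ∈ bs m q, ∑ c ∈ strs (2 * a), (g b - g (sg m a q c b)) ^ 2 with hD
  have hD2 : 2 * N ≤ D := by
    have h1 := hPI g hg
    have h2 := D_ge ha (q := q) g
    linarith
  have hMM : ∑ b ∈ bs m q, MM m a q g b ^ 2 ≤ N := by
    calc ∑ b ∈ bs m q, MM m a q g b ^ 2
        ≤ ∑ b ∈ bs m q, (1 / 4 ^ a) * ∑ c ∈ strs (2 * a), g (sg m a q c b) ^ 2 := by
          apply sum_le_sum
          intro b _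
          unfold MM
          have h1 := sq_sum_le_card_mul_sum_sq (s := strs (2 * a))
            (f := fun c => g (sg m a q c b))
          rw [card4] at h1
          rw [mul_pow]
          calc (1 / 4 ^ a) ^ 2 * (∑ c ∈ strs (2 * a), g (sg m a q c b)) ^ 2
              ≤ (1 / 4 ^ a) ^ 2 * (4 ^ a * ∑ c ∈ strs (2 * a), g (sg m a q c b) ^ 2) :=
                mul_le_mul_of_nonneg_left h1 (by positivity)
            _ = (1 / 4 ^ a) * ∑ c ∈ strs (2 * a), g (sg m a q c b) ^ 2 := by
                field_simp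
      _ = (1 / 4 ^ a) * ∑ c ∈ strs (2 * a), ∑ b ∈ bs m q, g (sg m a q c b) ^ 2 := by
          rw [← mul_sum, sum_comm]
      _ = (1 / 4 ^ a) * ∑ c ∈ strs (2 * a), N := by
          congr 1
          apply sum_congr rfl
          intro c _
          exact sum_sg c (fun b => g b ^ 2)
      _ = N := by
          rw [sum_const, nsmul_eq_mul, card4]
          field_simp
  have hgM : ∑ b ∈ bs m q, g b * MM m a q g b = N - (1 / (2 * 4 ^ a)) * D := by
    have h1 : ∀ c : List Bool, ∑ b ∈ bs m q, (g b - g (sg m a q c b)) ^ 2 =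
        2 * N - 2 * ∑ b ∈ bs m q, g b * g (sg m a q c b) := by
      intro c
      have h2 : ∀ b, (g b - g (sg m a q c b)) ^ 2 =
          g b ^ 2 - 2 * (g b * g (sg m a q c b)) + g (sg m a q c b) ^ 2 := by intro b; ring
      rw [sum_congr rfl (fun b _ => h2 b), sum_add_distrib, sum_sub_distrib, ← mul_sum,
        sum_sg c (fun b => g b ^ 2)]
      ring
    have h2 : D = 2 * 4 ^ a * N - 2 * ∑ c ∈ strs (2 * a), ∑ b ∈ bs m q, g b * g (sg m a q c b) := by
      rw [hD, sum_comm, sum_congr rfl (fun c _ => h1 c), sum_sub_distrib, sum_const, nsmul_eq_mul,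
        card4, ← mul_sum]
      ring
    have h3 : ∑ b ∈ bs m q, g b * MM m a q g b =
        (1 / 4 ^ a) * ∑ c ∈ strs (2 * a), ∑ b ∈ bs m q, g b * g (sg m a q c b) := by
      rw [sum_comm, mul_sum]
      apply sum_congr rfl
      intro b _
      unfold MM
      rw [← mul_sum]
      ring
    rw [h3, h2]
    field_simp
    ring
  have hP : ∑ b ∈ bs m q, PP m a q g b ^ 2 =
      (1 / 4) * (N + 2 * ∑ b ∈ bs m q, g b * MM m a q g b + ∑ b ∈ bs m q, MM m a q g b ^ 2) := by
    rw [hN, mul_sum, ← sum_add_distrib, ← sum_add_distrib, mul_sum]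
    apply sum_congr rfl
    intro b _
    rw [PP_eq]
    ring
  rw [hP, hgM]
  have h5 : (1 / (2 * 4 ^ a)) * (2 * N) ≤ (1 / (2 * 4 ^ a)) * D :=
    mul_le_mul_of_nonneg_left hD2 (by positivity)
  have h6 : (1 - 1 / (2 * 4 ^ a)) * N = N - (1 / (2 * 4 ^ a)) * N := by ring
  rw [h6]
  linarith

theorem mix : S_MIX := by
  intro m K a t q b₀ h b hb
  set B := bs m q with hB
  set w := 2 * a + 1 with hw
  have hBpos : 0 < B.card := card_pos.mpr ⟨b, hb⟩
  have hBr : (0:ℝ) < B.card := by exact_mod_cast hBpos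
  -- normalised deviations
  set g : ℕ → List Bool → ℝ := fun s b =>
    (nb (s * w) (fun r => decide (walk m a s q b₀ r = b)) : ℝ) / 2 ^ (s * w) - 1 / B.card with hg
  have hsum : ∀ s, ∑ b ∈ B, g s b = 0 := by
    intro s
    simp only [hg]
    rw [sum_sub_distrib, ← sum_div, sum_const, nsmul_eq_mul, mul_one_div_cancel hBr.ne']
    have h1 : ∑ b ∈ B, (nb (s * w) (fun r => decide (walk m a s q b₀ r = b)) : ℝ)
        = 2 ^ (s * w) := by
      have h2 : ∑ b ∈ B, nb (s * w) (fun r => decide (walk m a s q b₀ r = b)) = 2 ^ (s * w) := by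
        rw [sum_congr rfl (fun b _ => nb_eq_sum (s * w) _), sum_comm, ← card_strs, card_eq_sum_ones]
        apply sum_congr rfl
        intro r _
        have hm := walk_mem h s r
        rw [sum_eq_single (walk m a s q b₀ r)]
        · simp
        · intro b' _ hne
          simp [Ne.symm hne]
        · intro h'; exact absurd hm h'
      exact_mod_cast h2
    rw [h1, div_self (by positivity), sub_self]
  have hstep : ∀ s, ∀ b ∈ B, g (s + 1) b = PP m a q (g s) b := by
    intro s b hb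
    simp only [hg]
    unfold PP
    rw [nb_walk_succ h s hb]
    simp only [hg]
    rw [sum_sub_distrib, sum_const, nsmul_eq_mul, card_strs, ← sum_div]
    push_cast
    have e1 : (2:ℝ) ^ ((s + 1) * w) = 2 ^ (s * w) * 2 ^ w := by
      rw [add_mul, one_mul, pow_add]
    rw [e1, ← hw]
    field_simp
  have hdec : ∀ s, ∑ b ∈ B, g s b ^ 2 ≤ (1 - 1 / (2 * 4 ^ a)) ^ s := by
    intro s
    induction s with
    | zero =>
      rw [pow_zero]
      have h1 : ∀ b, g 0 b = (if b = b₀ then 1 else 0) - 1 / B.card := by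
        intro b
        simp only [hg]
        rw [zero_mul, pow_zero, div_one]
        congr 1
        unfold nb
        simp only [allB, walk_zero]
        by_cases hb : b = b₀
        · subst hb; simp
        · simp [hb, Ne.symm hb]
      have hb0 : b₀ ∈ B := mem_bs.2 ⟨h.len _ h.start, h.start⟩
      have h2 : ∑ b ∈ B, g 0 b ^ 2 = 1 - 1 / B.card := by
        have h3 : ∀ b, g 0 b ^ 2 = (if b = b₀ then (1 - 2 / (B.card : ℝ)) else 0) + (1 / (B.card : ℝ)) ^ 2 := by
          intro b
          rw [h1]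
          split_ifs <;> ring
        rw [sum_congr rfl (fun b _ => h3 b), sum_add_distrib, sum_ite_eq' B b₀, if_pos hb0,
          sum_const, nsmul_eq_mul]
        field_simp
        ring
      rw [h2]
      have : 0 ≤ 1 / (B.card : ℝ) := by positivity
      linarith
    | succ s ih =>
      rw [sum_congr rfl (fun b hb => by rw [hstep s b hb]), pow_succ, mul_comm]
      refine le_trans (contraction h.ha h.poincare (g s) (hsum s)) ?_
      apply mul_le_mul_of_nonneg_left ih
      have h4 : (1:ℝ) ≤ 4 ^ a := one_le_pow₀ (by norm_num)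
      have : 1 / (2 * (4:ℝ) ^ a) ≤ 1 := by
        rw [div_le_one (by positivity)]; linarith
      linarith
  have h4 : (1:ℝ) ≤ 4 ^ a := one_le_pow₀ (by norm_num)
  have hsmall : (1 - 1 / (2 * (4:ℝ) ^ a)) ^ t ≤ ((1 / 2) ^ (K + m)) ^ 2 := by
    have h1 : 1 - 1 / (2 * (4:ℝ) ^ a) ≤ Real.exp (-(1 / (2 * 4 ^ a))) := by
      have := Real.add_one_le_exp (-(1 / (2 * (4:ℝ) ^ a)))
      linarith
    have h0 : 0 ≤ 1 - 1 / (2 * (4:ℝ) ^ a) := by
      have : 1 / (2 * (4:ℝ) ^ a) ≤ 1 := by
        rw [div_le_one (by positivity)]; linarith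
      linarith
    calc (1 - 1 / (2 * (4:ℝ) ^ a)) ^ t ≤ (Real.exp (-(1 / (2 * 4 ^ a)))) ^ t :=
          pow_le_pow_left₀ h0 h1 t
      _ = Real.exp (-(2 * (K + m : ℕ))) := by
          rw [← Real.exp_nat_mul, h.ht]
          congr 1
          push_cast
          field_simp
          ring
      _ = ((Real.exp (-1)) ^ (K + m)) ^ 2 := by
          rw [← Real.exp_nat_mul, ← Real.exp_nat_mul]
          congr 1
          push_cast
          ring
      _ ≤ ((1 / 2) ^ (K + m)) ^ 2 := by
          apply pow_le_pow_left₀ (by positivity)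
          apply pow_le_pow_left₀ (by positivity)
          rw [Real.exp_neg, one_div]
          apply inv_anti₀ (by norm_num)
          have := Real.add_one_le_exp (1:ℝ)
          linarith
  have hgb : g t b ≤ (1 / 2) ^ (K + m) := by
    have h1 : g t b ^ 2 ≤ ∑ b ∈ B, g t b ^ 2 :=
      single_le_sum (f := fun b => g t b ^ 2) (fun i _ => by positivity) hb
    have h2 : g t b ^ 2 ≤ ((1 / 2) ^ (K + m)) ^ 2 := le_trans h1 (le_trans (hdec t) hsmall)
    exact le_trans (le_abs_self _) (abs_le_of_sq_le_sq h2 (by positivity)) 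
  -- conclusion
  have hfin : (B.card : ℝ) * (2 ^ K - 1) *
      (nb (t * w) (fun r => decide (walk m a t q b₀ r = b)) : ℝ) ≤ 2 ^ (K + t * w) := by
    set x : ℝ := (nb (t * w) (fun r => decide (walk m a t q b₀ r = b)) : ℝ) with hx
    have h1 : x / 2 ^ (t * w) ≤ 1 / B.card + (1 / 2) ^ (K + m) := by
      have : g t b = x / 2 ^ (t * w) - 1 / B.card := rfl
      linarith
    have h2 : (B.card : ℝ) ≤ 2 ^ m := by exact_mod_cast card_bs_le m q
    have h3 : (B.card : ℝ) * (x / 2 ^ (t * w)) ≤ 1 + (1 / 2) ^ K := by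
      calc (B.card : ℝ) * (x / 2 ^ (t * w)) ≤ B.card * (1 / B.card + (1 / 2) ^ (K + m)) :=
            mul_le_mul_of_nonneg_left h1 hBr.le
        _ = 1 + B.card * (1 / 2) ^ (K + m) := by field_simp
        _ ≤ 1 + 2 ^ m * (1 / 2) ^ (K + m) := by
            have : (B.card : ℝ) * (1 / 2) ^ (K + m) ≤ 2 ^ m * (1 / 2) ^ (K + m) :=
              mul_le_mul_of_nonneg_right h2 (by positivity)
            linarith
        _ = 1 + (1 / 2) ^ K := by
            rw [pow_add, one_div, inv_pow, inv_pow]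
            field_simp
    have h4 : (1:ℝ) ≤ 2 ^ K := one_le_pow₀ (by norm_num)
    have h5 : (2 ^ K - 1) * ((B.card : ℝ) * (x / 2 ^ (t * w))) ≤ 2 ^ K := by
      calc (2 ^ K - 1) * ((B.card : ℝ) * (x / 2 ^ (t * w))) ≤ (2 ^ K - 1) * (1 + (1 / 2) ^ K) :=
            mul_le_mul_of_nonneg_left h3 (by linarith)
        _ = 2 ^ K - (1 / 2) ^ K := by
            rw [one_div, inv_pow]
            field_simp
            ring
        _ ≤ 2 ^ K := by
            have : (0:ℝ) < (1 / 2) ^ K := by positivity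
            linarith
    calc (B.card : ℝ) * (2 ^ K - 1) * x
        = ((2 ^ K - 1) * ((B.card : ℝ) * (x / 2 ^ (t * w)))) * 2 ^ (t * w) := by
          field_simp
      _ ≤ 2 ^ K * 2 ^ (t * w) := mul_le_mul_of_nonneg_right h5 (by positivity)
      _ = 2 ^ (K + t * w) := by rw [pow_add]
  have hcast : (((B.card * (2 ^ K - 1) *
      nb (t * w) (fun r => decide (walk m a t q b₀ r = b)) : ℕ)) : ℝ) ≤ ((2 ^ (K + t * w) : ℕ) : ℝ) := by
    push_cast [Nat.cast_sub (Nat.one_le_two_pow)]
    exact hfin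
  exact_mod_cast hcast

end

end Pool.Agent.W646.ES
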